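import Pool.Agent.N561.G.HingeW
import Pool.Agent.TH858.J1745

/-!
# Small vertices: the critical value is the maximal volume
-/

set_option autoImplicit false

namespace Pool.Agent.N561.G

open Pool.Agent.TH563.UV
open Pool.Agent.TH563.V
open Pool.Agent.W711.HT hiding XX
open Pool.Agent.W719.AR (Fl Gap flS)
open Pool.Agent.W737.AR (Lf ze TT vol_le alt_zero)
open Pool.Agent.W709.VC (S_TET)
open Pool.Agent.W374.HT.Cch (der1 der2 valh valq)
open Pool.Agent.W571.AR (eqn' im_eq val_re)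
open Pool.Agent.TH609.UV (fe VL vc_facts hq vt_re vl_im shape_cases wt_eq vertex)
open Pool.Agent.TH609.Z (hg_of_hq)
open scoped Real

/-- the kind of a vertex different from the root -/
def kc (kf : Bool → ℕ → ℤ → ℕ) (c : PB) : ℕ := kf c.bl (c.nc + 1) c.wt

/-- the equation at a vertex -/
lemma vl_of {kf : Bool → ℕ → ℤ → ℕ} {cen : ℕ → ℂ} (ht : ∀ n a, kf true n a = 0) {ρ τ g : ℝ}
    {b : Bool} {n : ℕ} {a : ℤ} {z G l : ℂ}
    (h : VCG cen ρ τ g (kf b n a) b a z G) (hG : G = -(1 / (2 * π)) * l) : VL b a z l := by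
  by_cases hk : kf b n a = 0
  · have h1 := h.1 hk
    refine ⟨h1.1, fun hb => ?_⟩
    obtain ⟨-, h2⟩ := h1.2 hb
    exact eqn' _ _ _ _ hG h2
  · refine ⟨fun hb' => ?_, fun _ => eqn' _ _ G _ hG (h.2 hk).2⟩
    rw [hb'] at hk
    exact absurd (ht n a) hk

/-! ### The edges -/

/-- the position of the variable of a vertex of the kind `k` -/
def Ps (cen : ℕ → ℂ) (ρ τ g : ℝ) (k : ℕ) (z : ℂ) : Prop :=
  (k = 0 → z ∈ Rc ρ τ ∧ ‖z‖ ≤ 1 / 10) ∧ (k ≠ 0 → ‖z - cen k‖ ≤ g)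

lemma ps_of {cen : ℕ → ℂ} {ρ τ g : ℝ} (hρ : 0 < ρ) (hτ : 0 < τ) {k : ℕ} {b : Bool} {a : ℤ}
    {z G : ℂ} (h : VCG cen ρ τ g k b a z G) : Ps cen ρ τ g k z :=
  ⟨fun hk => vc_facts hρ hτ (h.1 hk), fun hk => (h.2 hk).1⟩

/-- the parameter of an edge -/
noncomputable def ee (dl : ℂ → ℂ → ℂ) (Dl : ℕ → ℂ → ℂ → ℂ) (k k' : ℕ) (z' z : ℂ) : ℂ :=
  if k ≠ 0 then Dl k z' z else if k' ≠ 0 then Dl k' z z' else dl z' z

lemma hv_symm {ψ ψ' u : ℂ} (h : HW ψ ψ' u) : hv ψ ψ' u = hv ψ' ψ u := by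
  rw [← vlf h, ← vlf (hw_symm h)]
  ring

theorem ef {ρ τ κ c : ℝ} {s dl : ℂ → ℂ → ℂ} (hK : KD ρ τ κ c s dl) {cen : ℕ → ℂ}
    {S Dl : ℕ → ℂ → ℂ → ℂ} {Q : ℕ → Prop} {g : ℝ}
    (hS : ∀ k, Q k → ∀ ψ φ : ℂ, ‖ψ‖ ≤ g → ‖φ - cen k‖ ≤ g → EFW (S k) ψ φ (Dl k ψ φ))
    {k k' : ℕ} {z' z : ℂ} (hk : k ≠ 0 → Q k)
    (hk' : k' ≠ 0 → Q k') (h1 : Ps cen ρ τ g k z) (h2 : Ps cen ρ τ g k' z')
    (h3 : k ≠ 0 → k' = 0 ∧ ‖z'‖ ≤ g) (h4 : k' ≠ 0 → k = 0 ∧ ‖z‖ ≤ g) :
    EFW (pt S s k k') z' z (ee dl Dl k k' z' z) := by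
  by_cases hk0 : k = 0
  · by_cases hk1 : k' = 0
    · subst hk0 hk1
      obtain ⟨t1, t3⟩ := h1.1 rfl
      obtain ⟨d1, d3⟩ := h2.1 rfl
      have e1 : ee dl Dl 0 0 z' z = dl z' z := by simp [ee]
      have e2 : pt S s 0 0 = s := by
        funext x y
        simp [pt]
      rw [e1, e2]
      refine ⟨hw_of_hg (hg_of_hq (hq hK d1 t1 d3 t3)), der1 hK d1 t1, der2 hK d1 t1, ?_⟩
      exact valh Pool.Agent.W583.HTP.poth hK d1 t1 d3 t3
    · subst hk0
      have hb := hS k' (hk' hk1) z z' (h4 hk1).2 (h2.2 hk1)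
      have e1 : ee dl Dl 0 k' z' z = Dl k' z z' := by simp [ee, hk1]
      have e2 : pt S s 0 k' = fun x y => S k' y x := by
        funext x y
        simp [pt, hk1]
      rw [e1, e2]
      have hV := hb.val
      refine ⟨hw_symm hb.hg, hb.d2, hb.d1, ?_⟩
      rw [hv_symm hb.hg] at hV
      linarith
  · have hb := hS k (hk hk0) z' z (h3 hk0).2 (h1.2 hk0)
    have e1 : ee dl Dl k k' z' z = Dl k z' z := by simp [ee, hk0]
    have e2 : pt S s k k' = S k := by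
      funext x y
      simp [pt, hk0]
    rw [e1, e2]
    exact hb

/-! ### Solutions -/

/-- the parameter `u` of the edge between `c` and its parent -/
noncomputable def uu (kf : Bool → ℕ → ℤ → ℕ) (e : ℕ → ℕ → ℂ → ℂ → ℂ) (k : ℕ) (t c : PB) : ℂ :=
  2 * π * e k (kc kf c) c.rz t.rz

/-- the conditions at the edges -/
def hpv (kf : Bool → ℕ → ℤ → ℕ) (e : ℕ → ℕ → ℂ → ℂ → ℂ) (k : ℕ) : PB → Prop
  | .vx _ _ _ => True
  | .br t c => hpv kf e k t ∧ hpv kf e (kc kf c) c ∧ HW c.rz t.rz (uu kf e k t c)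

/-- sum over the children of the root -/
noncomputable def lgv (kf : Bool → ℕ → ℤ → ℕ) (e : ℕ → ℕ → ℂ → ℂ → ℂ) (k : ℕ) : PB → ℂ
  | .vx _ _ _ => 0
  | .br t c => lgv kf e k t + Lg (uu kf e k t c) t.rz

/-- the equations at the vertices other than the root -/
def lcv (kf : Bool → ℕ → ℤ → ℕ) (e : ℕ → ℕ → ℂ → ℂ → ℂ) (k : ℕ) : PB → Prop
  | .vx _ _ _ => True
  | .br t c => lcv kf e k t ∧ lcv kf e (kc kf c) c ∧
      VL c.bl c.wt c.rz (Lg (uu kf e k t c) c.rz + lgv kf e (kc kf c) c)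

/-- sum of the hinge volumes -/
noncomputable def hsv (kf : Bool → ℕ → ℤ → ℕ) (e : ℕ → ℕ → ℂ → ℂ → ℂ) (k : ℕ) : PB → ℝ
  | .vx _ _ _ => 0
  | .br t c => hsv kf e k t + hsv kf e (kc kf c) c + hv c.rz t.rz (uu kf e k t c)

/-- the angle structure -/
noncomputable def agv (kf : Bool → ℕ → ℤ → ℕ) (e : ℕ → ℕ → ℂ → ℂ → ℂ) (k : ℕ) : PB → AB
  | .vx b a _ => .vx b a
  | .br t c => .br (agv kf e k t) (agv kf e (kc kf c) c) (fe t.rz (uu kf e k t c))
      (fe c.rz (uu kf e k t c))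

/-- the critical configurations are solutions -/
theorem indv {ρ τ κ c : ℝ} {s dl : ℂ → ℂ → ℂ} (hK : KD ρ τ κ c s dl)
    {kf : Bool → ℕ → ℤ → ℕ} {cen : ℕ → ℂ} (ht : ∀ n a, kf true n a = 0)
    {S Dl : ℕ → ℂ → ℂ → ℂ} {Q : ℕ → Prop} {g : ℝ} (hQ : ∀ b n a, kf b n a ≠ 0 → Q (kf b n a))
    (hS : ∀ k, Q k → ∀ ψ φ : ℂ, ‖ψ‖ ≤ g → ‖φ - cen k‖ ≤ g → EFW (S k) ψ φ (Dl k ψ φ)) :
    ∀ (p : PB) (k : ℕ), (k ≠ 0 → Q k) → CG kf cen S s ρ τ g k p → Ps cen ρ τ g k p.rz →
      gg kf S s k p = -(1 / (2 * π)) * lgv kf (ee dl Dl) k p ∧ hpv kf (ee dl Dl) k p ∧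
      lcv kf (ee dl Dl) k p ∧
      2 * π * (vg kf S s k p).re = hsv kf (ee dl Dl) k p + p.rz.im * (lgv kf (ee dl Dl) k p).im
  | .vx b a z, k, _, _, _ => by
      refine ⟨?_, trivial, trivial, ?_⟩
      · simp [gg, lgv]
      · simp [vg, hsv, lgv]
  | .br t d, k, hk, hCr, hP => by
      obtain ⟨hC1, hC2, hC3, hC4, hC5⟩ := hCr
      have hkd : kc kf d ≠ 0 → Q (kc kf d) := fun h => hQ _ _ _ h
      have hPt : Ps cen ρ τ g k t.rz := hP
      have hPd : Ps cen ρ τ g (kc kf d) d.rz := ps_of hK.hρ.1 hK.hτ.1 hC3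
      obtain ⟨i1, i2, i3, i4⟩ := indv hK ht hQ hS t k hk hC1 hPt
      obtain ⟨j1, j2, j3, j4⟩ := indv hK ht hQ hS d (kc kf d) hkd hC2 hPd
      have hE := ef hK hS hk hkd hPt hPd hC4 hC5
      obtain ⟨e1, e2, e3, e4⟩ := hE
      have hV : VL d.bl d.wt d.rz (Lg (uu kf (ee dl Dl) k t d) d.rz +
          lgv kf (ee dl Dl) (kc kf d) d) := by
        refine vl_of ht hC3 ?_
        have h1 : gg kf S s (kf d.bl (d.nc + 1) d.wt) d =
          -(1 / (2 * π)) * lgv kf (ee dl Dl) (kc kf d) d := j1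
        have h2 : deriv (fun w => pt S s k (kf d.bl (d.nc + 1) d.wt) w t.rz) d.rz =
          -(1 / (2 * π)) * Lg (uu kf (ee dl Dl) k t d) d.rz := e2
        rw [h1, h2]
        ring
      have hI := vt_re hV
      rw [Complex.add_im] at hI
      refine ⟨?_, ⟨i2, j2, e1⟩, ⟨i3, j3, hV⟩, ?_⟩
      · have h3 : deriv (fun w => pt S s k (kf d.bl (d.nc + 1) d.wt) d.rz w) t.rz =
          -(1 / (2 * π)) * Lg (uu kf (ee dl Dl) k t d) t.rz := e3
        simp only [gg, lgv]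
        rw [i1, h3]
        ring
      · have h4 : 2 * π * (pt S s k (kf d.bl (d.nc + 1) d.wt) d.rz t.rz).re =
          hv d.rz t.rz (uu kf (ee dl Dl) k t d) +
            d.rz.im * (Lg (uu kf (ee dl Dl) k t d) d.rz).im +
            t.rz.im * (Lg (uu kf (ee dl Dl) k t d) t.rz).im := e4
        have h5 : 2 * π * (vg kf S s (kf d.bl (d.nc + 1) d.wt) d).re =
          hsv kf (ee dl Dl) (kc kf d) d + d.rz.im * (lgv kf (ee dl Dl) (kc kf d) d).im := j4
        simp only [vg, hsv, lgv, PB.rz]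
        rw [Complex.add_im]
        simp only [Complex.add_re]
        linear_combination i4 + hI + h5 + h4

/-! ### The angle structure -/

section
variable (kf : Bool → ℕ → ℤ → ℕ) (e : ℕ → ℕ → ℂ → ℂ → ℂ)

theorem agv_wt (k : ℕ) : ∀ p : PB, (agv kf e k p).wt = p.wt
  | .vx _ _ _ => rfl
  | .br t _ => agv_wt k t

theorem agv_bl (k : ℕ) : ∀ p : PB, (agv kf e k p).bl = p.bl
  | .vx _ _ _ => rfl
  | .br t _ => agv_bl k t

theorem agv_shape : ∀ (p : PB) (k : ℕ), (agv kf e k p).shape = p.shape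
  | .vx _ _ _, _ => rfl
  | .br t c, k => by
    change Tb.br (agv kf e k t).shape (agv kf e (kc kf c) c).shape = Tb.br t.shape c.shape
    rw [agv_shape t k, agv_shape c (kc kf c)]

theorem agv_fl (k : ℕ) : ∀ p : PB, hpv kf e k p →
    (∀ x ∈ (agv kf e k p).fl, EGW p.rz x) ∧
      ((agv kf e k p).fl.map fun y => y.1.cr).sum = (lgv kf e k p).im
  | .vx b a z, _ => by
    refine ⟨?_, ?_⟩
    · intro x hx
      simp [agv, AB.fl] at hx
    · simp [agv, AB.fl, lgv]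
  | .br t c, h => by
    obtain ⟨h1, h2, h3⟩ := h
    obtain ⟨g1, g2⟩ := agv_fl k t h1
    have h4 := hw_symm h3
    refine ⟨?_, ?_⟩
    · intro x hx
      have hx' : x ∈ (agv kf e k t).fl ++ [(fe t.rz (uu kf e k t c),
          fe c.rz (uu kf e k t c))] := hx
      rcases List.mem_append.1 hx' with h | h
      · exact g1 x h
      · rw [List.mem_singleton] at h
        exact ⟨_, _, h4, h⟩
    · change (((agv kf e k t).fl ++ [(fe t.rz (uu kf e k t c),
          fe c.rz (uu kf e k t c))]).map fun y => y.1.cr).sum =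
        (lgv kf e k t + Lg (uu kf e k t c) t.rz).im
      rw [List.map_append, List.sum_append, g2, Complex.add_im]
      simp only [List.map_cons, List.map_nil, List.sum_cons, List.sum_nil, add_zero]
      rw [h4.sr.2.2.2.2.2]

theorem agv_isok : ∀ (p : PB) (k : ℕ), hpv kf e k p → lcv kf e k p → (agv kf e k p).OK
  | .vx _ _ _, _, _, _ => trivial
  | .br t c, k, h, h' => by
    obtain ⟨h1, h2, h3⟩ := h
    obtain ⟨k1, k2, k3⟩ := h'
    have h4 := hw_symm h3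
    obtain ⟨g1, g2⟩ := agv_fl kf e (kc kf c) c h2
    have s3 := h3.sr
    have s4 := h4.sr
    refine ⟨agv_isok t k h1 k1, agv_isok c (kc kf c) h2 k2, s4.1, s3.1, s4.2.1, ?_⟩
    rw [agv_wt, agv_bl]
    apply vokw (ψ := c.rz)
    · intro x hx
      rcases List.mem_cons.1 hx with rfl | hx
      · exact ⟨_, _, h3, rfl⟩
      · exact g1 x hx
    · intro hb
      rw [List.map_cons, List.sum_cons, g2]
      simp only
      rw [s3.2.2.2.2.2, ← Complex.add_im]
      exact vl_im k3 hb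

theorem agv_vol : ∀ (p : PB) (k : ℕ), hpv kf e k p → (agv kf e k p).vol = hsv kf e k p
  | .vx _ _ _, _, _ => rfl
  | .br t c, k, h => by
    obtain ⟨h1, h2, h3⟩ := h
    change (agv kf e k t).vol + (agv kf e (kc kf c) c).vol + 2 * ((fe t.rz (uu kf e k t c)).vol +
      (fe c.rz (uu kf e k t c)).vol) = hsv kf e k t + hsv kf e (kc kf c) c + hv c.rz t.rz
        (uu kf e k t c)
    rw [agv_vol t k h1, agv_vol c (kc kf c) h2, ← vlf h3]
    ring

/-! ### Maximality -/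

/-- the edges at the root: parameter, number at the child, the two `Fl` of `y` -/
noncomputable def elv (k : ℕ) : PB → AB → List ((ℂ × ℂ) × (Fl × Fl))
  | .br t c, .br t' _ f g => elv k t t' ++ [((uu kf e k t c, c.rz), (f, g))]
  | _, _ => []

/-- the total derivative -/
noncomputable def LLv (k : ℕ) : PB → AB → ℝ
  | .br t c, .br t' c' f g => LLv k t t' + LLv (kc kf c) c c' +
      (Lf (fe t.rz (uu kf e k t c)) f + Lf (fe c.rz (uu kf e k t c)) g)
  | _, _ => 0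

lemma elv_map (k : ℕ) (p : PB) (y : AB) (h : y.shape = p.shape) :
    (elv kf e k p y).map Prod.snd = y.fl := by
  induction p generalizing y with
  | vx b a z =>
    rcases shape_cases _ y h with ⟨b', a', z', h1, rfl⟩ | ⟨t, c, t', c', f, g, h1, -⟩
    · simp [elv, AB.fl]
    · simp at h1
  | br t c iht ihc =>
    rcases shape_cases _ y h with ⟨b', a', z', h1, -⟩ | ⟨t, c, t', c', f, g, h1, rfl, h2, h3⟩
    · simp at h1
    · simp only [PB.br.injEq] at h1
      obtain ⟨rfl, rfl⟩ := h1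
      simp [elv, AB.fl, iht t' h2]

lemma elv_lg (k : ℕ) (p : PB) (y : AB) (h : y.shape = p.shape) :
    ((elv kf e k p y).map (fun x => Lg x.1.1 p.rz)).sum = lgv kf e k p := by
  induction p generalizing y with
  | vx b a z =>
    rcases shape_cases _ y h with ⟨b', a', z', h1, rfl⟩ | ⟨t, c, t', c', f, g, h1, -⟩
    · simp [elv, lgv]
    · simp at h1
  | br t c iht ihc =>
    rcases shape_cases _ y h with ⟨b', a', z', h1, -⟩ | ⟨t, c, t', c', f, g, h1, rfl, h2, h3⟩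
    · simp at h1
    · simp only [PB.br.injEq] at h1
      obtain ⟨rfl, rfl⟩ := h1
      have := iht t' h2
      simp only [elv, List.map_append, List.map_cons, List.map_nil, List.sum_append, List.sum_cons,
        List.sum_nil, add_zero, lgv, PB.rz]
      rw [this]

lemma elv_pos (k : ℕ) (p : PB) (y : AB) (h : y.shape = p.shape) (hy : y.OK) :
    ∀ x ∈ elv kf e k p y, x.2.1.Pos ∧ x.2.2.Pos := by
  induction p generalizing y with
  | vx b a z =>
    rcases shape_cases _ y h with ⟨b', a', z', h1, rfl⟩ | ⟨t, c, t', c', f, g, h1, -⟩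
    · simp [elv]
    · simp at h1
  | br t c iht ihc =>
    rcases shape_cases _ y h with ⟨b', a', z', h1, -⟩ | ⟨t, c, t', c', f, g, h1, rfl, h2, h3⟩
    · simp at h1
    · simp only [PB.br.injEq] at h1
      obtain ⟨rfl, rfl⟩ := h1
      obtain ⟨k1, k2, k3, k4, k5, k6⟩ := hy
      intro x hx
      simp only [elv, List.mem_append, List.mem_singleton] at hx
      rcases hx with hx | rfl
      · exact iht t' h2 k1 x hx
      · exact ⟨k3, k4⟩

lemma LLv_eq (p : PB) (k : ℕ) (hp : hpv kf e k p)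
    (hcr : lcv kf e k p) (y : AB) (h : y.shape = p.shape) (hy : y.OK) :
    LLv kf e k p y = ((elv kf e k p y).map (fun x => TT p.rz x.1.1 x.2.1 x.2.2)).sum := by
  induction p generalizing y k with
  | vx b a z =>
    rcases shape_cases _ y h with ⟨b', a', z', h1, rfl⟩ | ⟨t, c, t', c', f, g, h1, -⟩
    · simp [elv, LLv]
    · simp at h1
  | br t c iht ihc =>
    rcases shape_cases _ y h with ⟨b', a', z', h1, -⟩ | ⟨t, c, t', c', f, g, h1, rfl, h2, h3⟩
    · simp at h1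
    · simp only [PB.br.injEq] at h1
      obtain ⟨rfl, rfl⟩ := h1
      obtain ⟨k1, k2, k3, k4, k5, k6⟩ := hy
      obtain ⟨n1, n2, n3⟩ := hp
      obtain ⟨r1, r2, r3⟩ := hcr
      have e1 := iht k n1 r1 t' h2 k1
      have e2 := ihc (kc kf c) n2 r2 c' h3 k2
      have e3 := edge_id (hw_symm n3) f g k3 k4 k5
      have e4 := vertex c.bl c.rz c.wt
        (((uu kf e k t c, t.rz), (g, f)) :: elv kf e (kc kf c) c c')
        (by
          intro x hx
          rcases List.mem_cons.mp hx with rfl | hx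
          · exact ⟨k4, k3⟩
          · exact elv_pos kf e (kc kf c) c c' h3 k2 x hx)
        (by
          rw [List.map_cons, elv_map kf e (kc kf c) c c' h3, ← (wt_eq c c' h3).1,
            ← (wt_eq c c' h3).2]
          exact k6)
        (by
          rw [List.map_cons, List.sum_cons, elv_lg kf e (kc kf c) c c' h3]
          exact r3)
      simp only [List.map_cons, List.sum_cons] at e4
      simp only [LLv, elv, List.map_append, List.map_cons, List.map_nil, List.sum_append,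
        List.sum_cons, List.sum_nil, add_zero, PB.rz]
      rw [e1, e2, e3]
      linarith

lemma vol_LLv (htet : S_TET) (p : PB) (k : ℕ) (hp : hpv kf e k p)
    (y : AB) (h : y.shape = p.shape) (hy : y.OK) :
    y.vol ≤ (agv kf e k p).vol - 2 * LLv kf e k p y := by
  induction p generalizing y k with
  | vx b a z =>
    rcases shape_cases _ y h with ⟨b', a', z', h1, rfl⟩ | ⟨t, c, t', c', f, g, h1, -⟩
    · simp [LLv, AB.vol, agv]
    · simp at h1
  | br t c iht ihc =>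
    rcases shape_cases _ y h with ⟨b', a', z', h1, -⟩ | ⟨t, c, t', c', f, g, h1, rfl, h2, h3⟩
    · simp at h1
    · simp only [PB.br.injEq] at h1
      obtain ⟨rfl, rfl⟩ := h1
      obtain ⟨k1, k2, k3, k4, k5, k6⟩ := hy
      obtain ⟨n1, n2, n3⟩ := hp
      have e1 := iht k n1 t' h2 k1
      have e2 := ihc (kc kf c) n2 c' h3 k2
      have e3 := vol_le htet _ f (hw_symm n3).sr.1 k3
      have e4 := vol_le htet _ g n3.sr.1 k4
      simp only [LLv, AB.vol, agv]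
      linarith

end

/-! ### The radius -/

/-- the value at a critical configuration is the maximal volume of the angle structures -/
theorem geog : S_GEOG := by
  intro ρ τ κ c s dl hK kf cen S D ht hD hSD
  classical
  obtain ⟨g, hg0, hg⟩ := Pool.Agent.TH858.J1745.exists_g'
    (fun k g => (∃ b n a, kf b n a = k ∧ k ≠ 0) → ∀ ψ φ : ℂ, ‖ψ‖ ≤ g →
      ‖φ - cen k‖ ≤ g → ∃ δ : ℂ, EFW (S k) ψ φ δ)
    (fun k g g' hgg h h1 ψ φ a b => h h1 ψ φ (a.trans hgg) (b.trans hgg))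
    (by
      intro k
      by_cases h : ∃ b n a, kf b n a = k ∧ k ≠ 0
      · obtain ⟨b, n, a, rfl, h0⟩ := h
        obtain ⟨g, hg0, hg⟩ := hSD b n a h0
        exact ⟨g, hg0, fun _ => hg⟩
      · exact ⟨1, one_pos, fun h1 => absurd h1 h⟩) D
  obtain ⟨Dl, hDl⟩ : ∃ Dl : ℕ → ℂ → ℂ → ℂ, ∀ k ψ φ, (∃ δ : ℂ, EFW (S k) ψ φ δ) →
      EFW (S k) ψ φ (Dl k ψ φ) := by
    have : ∀ k ψ φ, ∃ δ : ℂ, (∃ δ : ℂ, EFW (S k) ψ φ δ) → EFW (S k) ψ φ δ := by
      intro k ψ φ
      by_cases h : ∃ δ : ℂ, EFW (S k) ψ φ δ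
      · obtain ⟨δ, hδ⟩ := h
        exact ⟨δ, fun _ => hδ⟩
      · exact ⟨0, fun h1 => absurd h1 h⟩
    choose Dl h using this
    exact ⟨Dl, h⟩
  obtain ⟨Q, hQd⟩ : ∃ Q : ℕ → Prop, Q = fun k => ∃ b n a, kf b n a = k ∧ k ≠ 0 := ⟨_, rfl⟩
  have hQ : ∀ b n a, kf b n a ≠ 0 → Q (kf b n a) := by
    intro b n a h
    rw [hQd]
    exact ⟨b, n, a, rfl, h⟩
  have hS : ∀ k, Q k → ∀ ψ φ : ℂ, ‖ψ‖ ≤ g → ‖φ - cen k‖ ≤ g → EFW (S k) ψ φ (Dl k ψ φ) := by
    intro k hk ψ φ h1 h2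
    rw [hQd] at hk
    have hkD : k < D := by
      obtain ⟨b, n, a, rfl, -⟩ := hk
      exact hD b n a
    exact hDl k ψ φ (hg k hkD hk ψ φ h1 h2)
  refine ⟨g, hg0, fun p hCr hV hnc => ?_⟩
  set k := kf p.bl p.nc p.wt with hkdef
  have hk : k ≠ 0 → Q k := fun h => hQ _ _ _ h
  obtain ⟨i1, i2, i3, i4⟩ := indv hK ht hQ hS p k hk hCr (ps_of hK.hρ.1 hK.hτ.1 hV)
  set e := ee dl Dl with he
  have hE : VL p.bl p.wt p.rz (lgv kf e k p) := vl_of ht hV i1
  have hI' := vt_re hE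
  have hval : 2 * π * (vt p.bl p.wt p.rz + vg kf S s k p).re = hsv kf e k p := by
    rw [Complex.add_re]
    linear_combination hI' + i4
  have hvol := agv_vol kf e p k i2
  obtain ⟨g1, g2⟩ := agv_fl kf e k p i2
  rw [hval]
  constructor
  · refine ⟨agv kf e k p, agv_shape kf e p k, ⟨agv_isok kf e p k i2 i3, ?_⟩, hvol⟩
    rw [agv_wt, agv_bl]
    refine vokw g1 fun hb => ?_
    rw [g2]
    exact vl_im hE hb
  · rintro W ⟨y, hshape, hy, rfl⟩
    have h1 := vol_LLv kf e W120.VC.tet p k i2 y hshape hy.1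
    have h2 := LLv_eq kf e p k i2 i3 y hshape hy.1
    have h3 := vertex p.bl p.rz p.wt (elv kf e k p y) (elv_pos kf e k p y hshape hy.1)
      (by rw [elv_map kf e k p y hshape, ← (wt_eq p y hshape).1, ← (wt_eq p y hshape).2]
          exact hy.2)
      (by rw [elv_lg kf e k p y hshape]; exact hE)
    rw [h3] at h2
    rw [h2] at h1
    linarith

end Pool.Agent.N561.G
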